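import Pool.Agent.H98.SPC.Exact
import Pool.Agent.H98.SPC.Final
import Pool.Agent.H98.SPC.PairUnion

/-!
# MP_b0a4d3_co: the synchronizing ratio and the factors of the characteristic polynomial

Let `G` be a primitive `k`-out-regular digraph, `k ≥ 2`, let `A = adj G` be its adjacency operator
on the rational functions on the vertices, and let `m` be positive integer weights with
`m A = k m`.

1. If the characteristic polynomial of `A` is `(X - k) X ^ a q` with `q` irreducible and `a = 0`, or
`q(0) ≠ 0` and the sum of the weights is coprime to `k`, then a coloring is synchronizing if and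
only if one of its letters is not a permutation. The synchronizing ratio is `1` if some in-degree
is not `k`, and otherwise it is given up to explicit bounds, which agree for `k = 2`.

2. If the characteristic polynomial of `A` is `(X - k) X ^ a p` with the same condition, where every
irreducible factor `q` of `p` satisfies `dim ker q(A) ≤ deg q`, then every coloring is
synchronizing, or a permutation coloring, or satisfies linear conditions given by a factorisation
`p = g g'`, and the ratio is bounded from below by a sum over the factorisations.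
-/

namespace Pool.Agent.Results.MP_b0a4d3_co.InvariantSubspaces

open Finset Module Polynomial
open Pool.Agent.H10.Sync Pool.Agent.H98.SPC

open Classical in
/-- The synchronizing ratio of a primitive `k`-out-regular digraph. -/
theorem result (n k : ℕ) (hk : 2 ≤ k) (G : OutRegular n k) (hG : Primitive G) :
    -- positive integer weights exist
    (∃ m : Fin n → ℕ, IsWeight G fun v => (m v : ℚ)) ∧
    ∀ m : Fin n → ℕ, IsWeight G (fun v => (m v : ℚ)) →
      -- one irreducible factor
      (∀ (q : ℚ[X]) (a : ℕ), Irreducible q →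
        (adj G).charpoly = (X - C (k : ℚ)) * X ^ a * q →
        (a = 0 ∨ (q.coeff 0 ≠ 0 ∧ Nat.Coprime (∑ v, m v) k)) →
        (∀ c : Coloring n k, Synchronizing G c ↔ ¬ PermColoring G c) ∧
        (syncRatio G = 1 ↔ ∃ y, inDegree G y ≠ k) ∧
        1 - 1 / (k : ℝ) ≤ syncRatio G ∧
        1 - 1 / 2 ^ (n - outComponents G) ≤ syncRatio G ∧
        ((∀ y, inDegree G y = k) →
          syncRatio G ≤ 1 - 1 / (k.factorial : ℝ) ^ (n - outComponents G))) ∧
      -- several irreducible factors
      (∀ (p : ℚ[X]) (a : ℕ),
        (adj G).charpoly = (X - C (k : ℚ)) * X ^ a * p →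
        (a = 0 ∨ (p.coeff 0 ≠ 0 ∧ Nat.Coprime (∑ v, m v) k)) →
        (∀ q : ℚ[X], q.Monic → Irreducible q → q ∣ p →
          finrank ℚ (LinearMap.ker (aeval (adj G) q)) ≤ q.natDegree) →
        (∀ c : Coloring n k, Synchronizing G c ∨ PermColoring G c ∨
          ∃ g g' : ℚ[X], g.Monic ∧ g'.Monic ∧ g * g' = p ∧ g ≠ 1 ∧ g' ≠ 1 ∧
            ∀ b ∈ leftKer G g', ∀ f ∈ LinearMap.ker (aeval (adj G) g), ∀ i,
              ∑ v, b v * f (step G c v i) = 0) ∧
        ∀ Q : Finset (ℚ[X] × ℚ[X]),
          (∀ g g' : ℚ[X], g.Monic → g'.Monic → g * g' = p → g ≠ 1 → g' ≠ 1 → (g, g') ∈ Q) →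
          1 - permBound G -
            ∑ P ∈ Q, pairBound G (LinearMap.ker (aeval (adj G) P.1)) (leftKer G P.2) ≤
              syncRatio G) := by
  refine ⟨exists_nat_weight hG, fun m hm => ⟨?_, ?_⟩⟩
  · intro q a hq hchar ha
    obtain ⟨-, h2, h3⟩ := ratio_of_irreducible hk hG hm hq a hchar ha
    exact ⟨sync_iff hk hG hm hq a hchar ha, ratio_eq_one_iff hk hG hm hq a hchar ha, h3, h2,
      ratio_le (by omega) (two_le_of_irreducible hq a hchar)⟩
  · intro p a hchar ha hnd
    exact ⟨sync_or_perm_or_pair hk hG hm a hchar ha hnd, ratio_ge_pairs hk hG hm a hchar ha hnd⟩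

end Pool.Agent.Results.MP_b0a4d3_co.InvariantSubspaces
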