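import Pool.Agent.H98.SPC.ModCor

/-!
# MP_b0a4d3_co: the synchronizing ratio and the functions modulo the primes

Let `G` be a primitive `k`-out-regular digraph with the adjacency operator `A`, and let `m` be
positive integer weights with `m A = k m`. For a prime `p` let `timeSpace G p` be the space of the
functions `h` from the vertices to the integers modulo `p` such that `(A - k) h` is constant. A
coloring fits `h` if the sum of `m(v) h(v.w)` over the vertices `v`, modulo `p`, is the same for
all words `w`.

1. If a coloring is not synchronizing, then there is a number `r` with `2 ≤ r ≤ n` such that the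
vertices can be divided into `r` sets of equal weight, and for every prime `p` which divides `r`
the coloring fits a function in `timeSpace G p` which is not constant.

2. Consequently the synchronizing ratio is at least `1` minus the sum, over the primes `p` such that
the vertices can be divided into `p` sets of equal weight, of the number of the pairs of such a
function and a coloring which fits it, divided by `p (p - 1) (k!) ^ n`.

3. If for every such prime `p` and every function `h` in `timeSpace G p` which is not constant there
is a vertex `v` whose weight is not divisible by `p` such that at most a fraction `β p` of the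
bijections between the edges leaving `v` and the colors produces a given pattern of the values of
`h`, then the ratio is at least `1 - ∑ β p (p ^ (d - 1) - 1) / (p - 1)`, where `d` is the dimension
of `timeSpace G p`. Here `β p = 1 / k` is possible if `h` is not constant on the out-neighbours of
`v`.

4. The ratio is at least `1 - 1 / k` if there is at most one such prime `p`, the dimension of
`timeSpace G p` is at most `2`, and a function of this space which is not constant is not constant
on the out-neighbours of some vertex whose weight is not divisible by `p`.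

5. All colorings are synchronizing if `timeSpace G p` contains only the constants for every such
prime `p`.
-/

namespace Pool.Agent.Results.MP_b0a4d3_co.LocalPrimes

open Finset Module
open Pool.Agent.H10.Sync Pool.Agent.H98.SPC

/-- The synchronizing ratio of a primitive `k`-out-regular digraph. -/
theorem result (n k : ℕ) (hk : 2 ≤ k) (G : OutRegular n k) (hG : Primitive G) (m : Fin n → ℕ)
    (hm : IsWeight G fun v => (m v : ℚ)) :
    (∀ c : Coloring n k, ¬ Synchronizing G c →
      ∃ r, 2 ≤ r ∧ r ≤ n ∧ EqualSplit m r ∧ ∀ p, p.Prime → p ∣ r →
        ∃ h ∈ timeSpace G p, (∃ a b, h a ≠ h b) ∧ ModFits G m h c) ∧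
    1 - ∑ p ∈ splitPrimes m, (modPairs G m p : ℝ) / ((p : ℝ) * (p - 1) * (k.factorial : ℝ) ^ n) ≤
      syncRatio G ∧
    (∀ β : ℕ → ℝ,
      (∀ p ∈ splitPrimes m, ∀ h ∈ timeSpace G p, (∃ a b, h a ≠ h b) →
        ∃ v, (m v : ZMod p) ≠ 0 ∧ patternRatio G h v ≤ β p) →
      1 - ∑ p ∈ splitPrimes m, β p *
        (((p : ℝ) ^ (finrank (ZMod p) (timeSpace G p) - 1) - 1) / (p - 1)) ≤ syncRatio G) ∧
    (∀ (p : ℕ) (h : Fin n → ZMod p) (v : Fin n), (∃ e e', h (G v e) ≠ h (G v e')) →
      patternRatio G h v ≤ 1 / (k : ℝ)) ∧
    (∀ p, splitPrimes m ⊆ {p} → finrank (ZMod p) (timeSpace G p) ≤ 2 →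
      (∀ h ∈ timeSpace G p, (∃ a b, h a ≠ h b) →
        ∃ v, (m v : ZMod p) ≠ 0 ∧ ∃ e e', h (G v e) ≠ h (G v e')) →
      1 - 1 / (k : ℝ) ≤ syncRatio G) ∧
    ((∀ p ∈ splitPrimes m, ∀ h ∈ timeSpace G p, ∀ a b, h a = h b) → syncRatio G = 1) :=
  ⟨exists_rank (by omega) hG hm, ratio_ge_modPairs (by omega) hG hm,
    fun β hβ => ratio_ge_beta (by omega) hG hm β hβ,
    fun _ h v hne => patternRatio_le (by omega) G h v hne,
    fun p hp hd hact => ratio_ge_one_prime (by omega) hG hm hp hd hact,
    fun hc => ratio_eq_one (by omega) hG hm hc⟩

end Pool.Agent.Results.MP_b0a4d3_co.LocalPrimes
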