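import Pool.Agent.H10.Sync.Main

/-!
# MP_b0a4d3_co: the synchronizing ratio for many colors

Every primitive `k`-out-regular digraph has synchronizing ratio exactly `1 - 1/k`, or at least
`1 - 33 b⁴ D⁶ (log₂ k + 1)² / k²`, where `b` is the number of branching vertices (at least two
out-neighbours) and `D` bounds the number of out-neighbours of a vertex. So the conjectured bound
`1 - 1/k` holds if `33 b⁴ D⁶ (log₂ k + 1)² ≤ k`, e.g. if `33 n¹⁰ (log₂ k + 1)² ≤ k`.
-/

namespace Pool.Agent.Results.MP_b0a4d3_co.ManyColors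

open Finset Pool.Agent.H10.Sync

theorem card_coloring (n k : ℕ) :
    (Fintype.card (Coloring n k) : ℝ) = (k.factorial : ℝ) ^ n := by
  rw [Fintype.card_pi, prod_const, card_univ, Fintype.card_fin, Fintype.card_perm,
    Fintype.card_fin]
  push_cast
  rfl

theorem syncRatio_eq {n k : ℕ} (G : OutRegular n k) :
    syncRatio G = 1 - ((cnt fun c : Coloring n k => ¬ IsSync (step G c) : ℕ) : ℝ) /
      Fintype.card (Coloring n k) := by
  classical
  have hpos : (0 : ℝ) < Fintype.card (Coloring n k) := by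
    rw [card_coloring]
    exact pow_pos (by exact_mod_cast Nat.factorial_pos k) n
  have h1 : ((univ : Finset (Coloring n k)).filter fun c => Synchronizing G c).card +
      (cnt fun c : Coloring n k => ¬ IsSync (step G c)) = Fintype.card (Coloring n k) := by
    rw [cnt_eq, ← card_univ]
    exact card_filter_add_card_filter_not _
  have h2 : (((univ : Finset (Coloring n k)).filter fun c => Synchronizing G c).card : ℝ) +
      (cnt fun c : Coloring n k => ¬ IsSync (step G c) : ℕ) = Fintype.card (Coloring n k) := by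
    exact_mod_cast h1
  rw [syncRatio, ← card_coloring, eq_sub_iff_add_eq, ← add_div, div_eq_one_iff_eq hpos.ne', ← h2]

theorem syncRatio_nonneg {n k : ℕ} (G : OutRegular n k) : 0 ≤ syncRatio G := by
  unfold syncRatio
  positivity

theorem dichotomy {n k : ℕ} (hk : 1 ≤ k) {G : OutRegular n k} (hG : Primitive G) {D : ℕ}
    (hD : ∀ v, (outNbrs G v).card ≤ D) :
    syncRatio G = 1 - 1 / (k : ℝ) ∨
      1 - 33 * ((branching G).card : ℝ) ^ 4 * (D : ℝ) ^ 6 * ((Nat.log 2 k : ℝ) + 1) ^ 2 /
        (k : ℝ) ^ 2 ≤ syncRatio G := by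
  have hpos : (0 : ℝ) < Fintype.card (Coloring n k) := by
    rw [card_coloring]
    exact pow_pos (by exact_mod_cast Nat.factorial_pos k) n
  have hk0 : (0 : ℝ) < k := by exact_mod_cast (show 0 < k by omega)
  have hD1 : (1 : ℝ) ≤ D := by
    obtain ⟨v⟩ := nonempty_of_primitive hG
    have : 1 ≤ D := le_trans (card_pos.2 ⟨G v ⟨0, hk⟩, mem_outNbrs v _⟩) (hD v)
    exact_mod_cast this
  by_cases hk3 : 3 ≤ k
  · by_cases hsp : Nonempty (SpecialData G)
    · left
      obtain ⟨S⟩ := hsp
      have h1 : (cnt fun c : Coloring n k => ¬ IsSync (step G c)) * k =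
          Fintype.card (Coloring n k) := by
        rw [← coin_one_eq (h := (S.p, S.ep)) (g := (S.q, S.eq)) S.hpq.symm]
        congr 1
        apply cnt_congr
        intro c
        rw [S.sync_iff hG hk3, not_not, Coin]
      have h2 : ((cnt fun c : Coloring n k => ¬ IsSync (step G c) : ℕ) : ℝ) * k =
          Fintype.card (Coloring n k) := by exact_mod_cast h1
      rw [syncRatio_eq, ← h2]
      congr 1
      have h3 : ((cnt fun c : Coloring n k => ¬ IsSync (step G c) : ℕ) : ℝ) ≠ 0 := by
        intro h0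
        rw [h0, zero_mul] at h2
        exact hpos.ne h2
      field_simp
    · right
      have h1 := cnt_not_sync_le (by omega) hG hD (not_nonempty_iff.1 hsp)
      rw [syncRatio_eq]
      have h2 := (div_le_iff₀ hpos).2 h1
      linarith
  · right
    rcases Nat.eq_zero_or_pos (branching G).card with hb | hb
    · have hall : ∀ c : Coloring n k, IsSync (step G c) := by
        intro c
        apply sync_of_all_stab hG
        intro v e e'
        have : G v e = G v e' := by
          by_contra hne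
          have := mem_branching_of_ne hne
          rw [card_eq_zero.1 hb] at this
          simp at this
        rw [this]
        exact Stab.refl _
      have h0 : (cnt fun c : Coloring n k => ¬ IsSync (step G c)) = 0 := by
        classical
        rw [cnt_eq, card_eq_zero]
        apply filter_eq_empty_iff.2
        intro c _ h
        exact h (hall c)
      rw [syncRatio_eq, h0, hb]
      simp
    · refine le_trans ?_ (syncRatio_nonneg G)
      have hb1 : (1 : ℝ) ≤ (branching G).card := by exact_mod_cast hb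
      have hk2 : (k : ℝ) ≤ 2 := by
        have : k ≤ 2 := by omega
        exact_mod_cast this
      have hl : (0 : ℝ) ≤ Nat.log 2 k := Nat.cast_nonneg _
      have h1 : (1 : ℝ) ≤ ((branching G).card : ℝ) ^ 4 * (D : ℝ) ^ 6 *
          ((Nat.log 2 k : ℝ) + 1) ^ 2 := by
        have h2 : (1 : ℝ) ≤ ((branching G).card : ℝ) ^ 4 := one_le_pow₀ hb1
        have h3 : (1 : ℝ) ≤ (D : ℝ) ^ 6 := one_le_pow₀ hD1
        have h4 : (1 : ℝ) ≤ ((Nat.log 2 k : ℝ) + 1) ^ 2 := one_le_pow₀ (by linarith)
        exact one_le_mul_of_one_le_of_one_le (one_le_mul_of_one_le_of_one_le h2 h3) h4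
      have h5 : (k : ℝ) ^ 2 ≤ 4 := by nlinarith
      rw [sub_nonpos, le_div_iff₀ (by positivity)]
      nlinarith

theorem bound_of_le {n k : ℕ} (hk : 1 ≤ k) {G : OutRegular n k} (hG : Primitive G) {D : ℕ}
    (hD : ∀ v, (outNbrs G v).card ≤ D)
    (h : 33 * (branching G).card ^ 4 * D ^ 6 * (Nat.log 2 k + 1) ^ 2 ≤ k) :
    1 - 1 / (k : ℝ) ≤ syncRatio G := by
  have hk0 : (0 : ℝ) < k := by exact_mod_cast (show 0 < k by omega)
  rcases dichotomy hk hG hD with h1 | h1
  · exact h1.ge
  · refine le_trans ?_ h1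
    have h2 : 33 * ((branching G).card : ℝ) ^ 4 * (D : ℝ) ^ 6 * ((Nat.log 2 k : ℝ) + 1) ^ 2 ≤ k := by
      exact_mod_cast h
    have h3 : 33 * ((branching G).card : ℝ) ^ 4 * (D : ℝ) ^ 6 * ((Nat.log 2 k : ℝ) + 1) ^ 2 /
        (k : ℝ) ^ 2 ≤ 1 / k := by
      rw [div_le_div_iff₀ (by positivity) hk0]
      nlinarith
    linarith

/-- **Main result.** Let `G` be a primitive `k`-out-regular digraph on `n` vertices with `b`
branching vertices, each vertex having at most `D` out-neighbours. Its synchronizing ratio is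
exactly `1 - 1/k` or at least `1 - 33 b⁴ D⁶ (log₂ k + 1)² / k²`; it is at least `1 - 1/k` if
`33 b⁴ D⁶ (log₂ k + 1)² ≤ k`, in particular if `33 n¹⁰ (log₂ k + 1)² ≤ k`. -/
theorem result (n k : ℕ) (hk : 1 ≤ k) (G : OutRegular n k) (hG : Primitive G) :
    (∀ D : ℕ, (∀ v, (outNbrs G v).card ≤ D) →
      (syncRatio G = 1 - 1 / (k : ℝ) ∨
        1 - 33 * ((branching G).card : ℝ) ^ 4 * (D : ℝ) ^ 6 * ((Nat.log 2 k : ℝ) + 1) ^ 2 /
          (k : ℝ) ^ 2 ≤ syncRatio G) ∧
      (33 * (branching G).card ^ 4 * D ^ 6 * (Nat.log 2 k + 1) ^ 2 ≤ k →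
        1 - 1 / (k : ℝ) ≤ syncRatio G)) ∧
    (33 * n ^ 10 * (Nat.log 2 k + 1) ^ 2 ≤ k → 1 - 1 / (k : ℝ) ≤ syncRatio G) := by
  refine ⟨fun D hD => ⟨dichotomy hk hG hD, bound_of_le hk hG hD⟩, fun h => ?_⟩
  have hD : ∀ v, (outNbrs G v).card ≤ n := fun v => by
    refine le_trans (card_le_univ _) ?_
    rw [Fintype.card_fin]
  apply bound_of_le hk hG hD
  refine le_trans ?_ h
  have hb : (branching G).card ≤ n := by
    refine le_trans (card_le_univ _) ?_
    rw [Fintype.card_fin]
  calc 33 * (branching G).card ^ 4 * n ^ 6 * (Nat.log 2 k + 1) ^ 2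
      ≤ 33 * n ^ 4 * n ^ 6 * (Nat.log 2 k + 1) ^ 2 := by gcongr
    _ = 33 * n ^ 10 * (Nat.log 2 k + 1) ^ 2 := by ring

end Pool.Agent.Results.MP_b0a4d3_co.ManyColors
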