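import Pool.Agent.H82.SR.Main

/-!
# MP_b0a4d3_co: the synchronizing ratio of admissible digraphs

Let `z` be a vertex of a primitive `k`-out-regular digraph. A vertex is timed over `z` if the first
visit to `z` of a walk starting at this vertex always happens at the same time, its height. If the
digraph is admissible over `z` (definitions in `Pool.Agent.H82.SR.Defs`), then its synchronizing ratio
is at least `1 - 1/k`, and it is `1` if there is no critical vertex. All digraphs in which every
vertex different from `z` has a single in-neighbour (the digraphs of finite complete prefix codes)
are admissible over `z`.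
-/

namespace Pool.Agent.Results.MP_b0a4d3_co.TimedClass

open Pool.Agent.H10.Sync Pool.Agent.H82.SR

/-- Let `G` be a primitive `k`-out-regular digraph, `k ≥ 2`, and `z` a vertex. If `G` is admissible
over `z` then the synchronizing ratio of `G` is at least `1 - 1/k`, and it is `1` if moreover there
is no critical vertex over `z`. If every vertex which is not timed over `z` has a single
in-neighbour, then `G` is admissible over `z`. -/
theorem result (n k : ℕ) (hk : 2 ≤ k) (G : OutRegular n k) (hG : Primitive G) (z : Fin n) :
    (Admissible G z → 1 - 1 / (k : ℝ) ≤ syncRatio G) ∧
    (Admissible G z → (∀ u, ¬ Critical G z u) → syncRatio G = 1) ∧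
    ((∀ y, ¬ Timed G z y → ∀ u u' e e', G u e = y → G u' e' = y → u = u') →
      Admissible G z) :=
  ⟨fun h => ratio_ge hk hG h, fun h h' => ratio_eq_one hk hG h h',
    fun h => admissible_of_indegree (by omega) h⟩

end Pool.Agent.Results.MP_b0a4d3_co.TimedClass
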